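import Pool.Agent.Helper37.BenzelDefs
import Pool.Agent.Helper37.BenzelGeo

namespace Pool.Agent.Results.MP_5ac57a_co.Schroeder

open Pool.Agent.Helper37.Benzel

/-- For every `n ≥ 1` and every choice `q` of the excluded bone direction, the number of tilings
of the `(n+2, 2n+1)`-benzel by right stones, left stones and bones of the other two directions is
the large Schröder number. -/
theorem result : ∀ n : ℕ, 1 ≤ n → ∀ q : Fin 3, T112 q (n + 2) (2 * n + 1) = schroder n :=
  fun n hn q => main n hn q

end Pool.Agent.Results.MP_5ac57a_co.Schroeder
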